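import Pool.Agent.N718.LB.Stm

/-!
Project LB, part DENS (helper40): a positive proportion of the coefficients is admissible.
-/

set_option autoImplicit false

namespace Pool.Agent.N40.LB

open Finset
open Pool.Agent.N718.LB

theorem cnt_mod (B p : ℕ) (P : ℕ → Prop) [DecidablePred P]
    (h : ∀ x y, P x → P y → x % p = y % p) : ((range B).filter P).card ≤ B / p + 1 := by
  have h0 : ((range B).filter P).card ≤ (range (B / p + 1)).card := by
    apply Finset.card_le_card_of_injOn (fun x => x / p)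
    · intro x hx
      have hx' := Finset.mem_filter.1 (Finset.mem_coe.1 hx)
      rw [Finset.mem_coe, Finset.mem_range]
      exact Nat.lt_succ_of_le (Nat.div_le_div_right (Finset.mem_range.1 hx'.1).le)
    · intro x hx y hy hxy
      have h1 := h x y (mem_filter.1 (Finset.mem_coe.1 hx)).2 (mem_filter.1 (Finset.mem_coe.1 hy)).2
      have h2 := Nat.div_add_mod x p
      have h3 := Nat.div_add_mod y p
      simp only at hxy
      rw [← h2, ← h3, hxy, h1]
  rwa [card_range] at h0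

theorem dvd_mod {p c x y : ℕ} (hp : Nat.Coprime p 6) (hx : p ∣ 6 * x + c) (hy : p ∣ 6 * y + c) :
    x % p = y % p := by
  have h1 : 6 * x + c ≡ 6 * y + c [MOD p] :=
    (Nat.modEq_zero_iff_dvd.2 hx).trans (Nat.modEq_zero_iff_dvd.2 hy).symm
  have h2 : 6 * x ≡ 6 * y [MOD p] := Nat.ModEq.add_right_cancel' c h1
  exact Nat.ModEq.cancel_left_of_coprime hp h2

theorem cnt_dvd (B c : ℕ) {p : ℕ} (hp : Nat.Coprime p 6) :
    (((range B).filter (fun x => p ∣ 6 * x + c)).card : ℝ) ≤ (B : ℝ) / p + 1 := by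
  have h1 := cnt_mod B p (fun x => p ∣ 6 * x + c) (fun x y hx hy => dvd_mod hp hx hy)
  have h2 : (((range B).filter (fun x => p ∣ 6 * x + c)).card : ℝ) ≤ ((B / p + 1 : ℕ) : ℝ) := by
    exact_mod_cast h1
  have h3 : ((B / p : ℕ) : ℝ) ≤ (B : ℝ) / p := Nat.cast_div_le
  push_cast at h2
  linarith

theorem pair_card (B d : ℕ) :
    (((range B ×ˢ range B).filter
      (fun x => ¬ Nat.Coprime (6 * x.1 + 1) (6 * x.2 + d))).card : ℝ) ≤
      ∑ p ∈ Ico 5 (6 * B), ((B : ℝ) / p + 1) ^ 2 := by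
  set Q : Finset ℕ := (Ico 5 (6 * B)).filter (fun p => Nat.Coprime p 6) with hQ
  have hsub : (range B ×ˢ range B).filter (fun x => ¬ Nat.Coprime (6 * x.1 + 1) (6 * x.2 + d)) ⊆
      Q.biUnion (fun p => ((range B).filter (fun x => p ∣ 6 * x + 1)) ×ˢ
        ((range B).filter (fun x => p ∣ 6 * x + d))) := by
    intro x hx
    obtain ⟨hx1, hx2⟩ := mem_filter.1 hx
    obtain ⟨h1, h2⟩ := mem_product.1 hx1
    obtain ⟨p, hp, hp1, hp2⟩ := Nat.Prime.not_coprime_iff_dvd.1 hx2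
    have hc : Nat.Coprime p 6 := by
      rw [hp.coprime_iff_not_dvd]
      intro h6
      have : p ∣ 1 := (Nat.dvd_add_right (h6.mul_right _)).1 hp1
      exact hp.one_lt.ne' (Nat.dvd_one.1 this)
    have h5 : 5 ≤ p := by
      by_contra hlt
      have h2 := hp.two_le
      have h3 : p < 5 := by omega
      interval_cases p
      · exact absurd hc (by decide)
      · exact absurd hc (by decide)
      · exact absurd hp (by decide)
    have hle : p ≤ 6 * x.1 + 1 := Nat.le_of_dvd (by omega) hp1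
    have hxB := Finset.mem_range.1 h1
    rw [mem_biUnion]
    refine ⟨p, ?_, ?_⟩
    · rw [hQ, mem_filter, mem_Ico]
      exact ⟨⟨h5, by omega⟩, hc⟩
    · rw [mem_product, mem_filter, mem_filter]
      exact ⟨⟨h1, hp1⟩, ⟨h2, hp2⟩⟩
  have h1 := (card_le_card hsub).trans card_biUnion_le
  have h2 : (((range B ×ˢ range B).filter
      (fun x => ¬ Nat.Coprime (6 * x.1 + 1) (6 * x.2 + d))).card : ℝ) ≤
      ∑ p ∈ Q, ((((range B).filter (fun x => p ∣ 6 * x + 1)) ×ˢ
        ((range B).filter (fun x => p ∣ 6 * x + d))).card : ℝ) := by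
    exact_mod_cast h1
  refine h2.trans ?_
  have h3 : ∑ p ∈ Q, ((((range B).filter (fun x => p ∣ 6 * x + 1)) ×ˢ
        ((range B).filter (fun x => p ∣ 6 * x + d))).card : ℝ) ≤
      ∑ p ∈ Q, ((B : ℝ) / p + 1) ^ 2 := by
    refine Finset.sum_le_sum fun p hp => ?_
    have hc := (mem_filter.1 hp).2
    rw [card_product, sq]
    push_cast
    exact mul_le_mul (cnt_dvd B 1 hc) (cnt_dvd B d hc) (by positivity) (by positivity)
  refine h3.trans ?_
  exact Finset.sum_le_sum_of_subset_of_nonneg (filter_subset _ _)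
    (fun _ _ _ => by positivity)

theorem sq_sum (N : ℕ) : ∑ p ∈ Ico 5 (N + 5), (1 : ℝ) / (p : ℝ) ^ 2 ≤ 1 / 4 - 1 / ((N : ℝ) + 4) := by
  induction N with
  | zero => simp
  | succ N ih =>
    have e : N + 1 + 5 = (N + 5) + 1 := by ring
    rw [e, Finset.sum_Ico_succ_top (by omega)]
    have h1 : (1 : ℝ) / ((N + 5 : ℕ) : ℝ) ^ 2 ≤ 1 / ((N : ℝ) + 4) - 1 / (((N + 1 : ℕ) : ℝ) + 4) := by
      have h0 : (0 : ℝ) ≤ N := Nat.cast_nonneg _
      have e2 : 1 / ((N : ℝ) + 4) - 1 / (((N + 1 : ℕ) : ℝ) + 4) = 1 / (((N : ℝ) + 4) * (N + 5)) := by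
        push_cast
        field_simp
        ring
      rw [e2]
      push_cast
      apply one_div_le_one_div_of_le (by positivity)
      nlinarith
    linarith

theorem sum_bound {B : ℕ} (hB : 2160 ≤ B) :
    ∑ p ∈ Ico 5 (6 * B), ((B : ℝ) / p + 1) ^ 2 ≤ 11 / 36 * (B : ℝ) ^ 2 := by
  have h1 : ∑ p ∈ Ico 5 (6 * B), ((B : ℝ) / p + 1) ^ 2 ≤
      ∑ p ∈ Ico 5 (6 * B), (10 / 9 * (B : ℝ) ^ 2 * (1 / (p : ℝ) ^ 2) + 10) := by
    refine Finset.sum_le_sum fun p hp => ?_
    have h2 : (B : ℝ) ^ 2 * (1 / (p : ℝ) ^ 2) = ((B : ℝ) / p) ^ 2 := by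
      rw [div_pow]; ring
    rw [mul_assoc, h2]
    nlinarith [sq_nonneg ((B : ℝ) / p - 9)]
  refine h1.trans ?_
  rw [Finset.sum_add_distrib, ← Finset.mul_sum, Finset.sum_const, Nat.card_Ico, nsmul_eq_mul]
  have h3 := sq_sum (6 * B - 5)
  have e : 6 * B - 5 + 5 = 6 * B := by omega
  rw [e] at h3
  have h4 : ∑ p ∈ Ico 5 (6 * B), (1 : ℝ) / (p : ℝ) ^ 2 ≤ 1 / 4 := by
    have : (0 : ℝ) ≤ 1 / (((6 * B - 5 : ℕ) : ℝ) + 4) := by positivity
    linarith
  have h5 : ((6 * B - 5 : ℕ) : ℝ) ≤ 6 * B := by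
    have : 6 * B - 5 ≤ 6 * B := by omega
    exact_mod_cast this
  have h6 : (2160 : ℝ) ≤ B := by exact_mod_cast hB
  have h7 : 10 / 9 * (B : ℝ) ^ 2 * ∑ p ∈ Ico 5 (6 * B), (1 : ℝ) / (p : ℝ) ^ 2 ≤
      10 / 9 * (B : ℝ) ^ 2 * (1 / 4) := mul_le_mul_of_nonneg_left h4 (by positivity)
  nlinarith

theorem pair_bound {B : ℕ} (hB : 2160 ≤ B) (d : ℕ) :
    (((range B ×ˢ range B).filter
      (fun x => ¬ Nat.Coprime (6 * x.1 + 1) (6 * x.2 + d))).card : ℝ) ≤ 11 / 36 * (B : ℝ) ^ 2 :=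
  (pair_card B d).trans (sum_bound hB)

/-- The good triples. -/
def Good (x : ℕ × ℕ × ℕ) : Prop :=
  Nat.Coprime (6 * x.1 + 1) (6 * x.2.1 + 1) ∧ Nat.Coprime (6 * x.1 + 1) (6 * x.2.2 + 2) ∧
    Nat.Coprime (6 * x.2.1 + 1) (6 * x.2.2 + 2)

instance : DecidablePred Good := fun x => by unfold Good; infer_instance

theorem good_card {B : ℕ} (hB : 2160 ≤ B) :
    (B : ℝ) ^ 3 / 12 ≤ (((range B ×ˢ (range B ×ˢ range B)).filter Good).card : ℝ) := by
  set T : Finset (ℕ × ℕ × ℕ) := range B ×ˢ (range B ×ˢ range B) with hT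
  set P1 := (range B ×ˢ range B).filter (fun x => ¬ Nat.Coprime (6 * x.1 + 1) (6 * x.2 + 1))
    with hP1
  set P2 := (range B ×ˢ range B).filter (fun x => ¬ Nat.Coprime (6 * x.1 + 1) (6 * x.2 + 2))
    with hP2
  have hsub : T ⊆ T.filter Good ∪
      ((P1 ×ˢ range B).image (fun y => (y.1.1, y.1.2, y.2)) ∪
        ((P2 ×ˢ range B).image (fun y => (y.1.1, y.2, y.1.2)) ∪
          (P2 ×ˢ range B).image (fun y => (y.2, y.1.1, y.1.2)))) := by
    rintro ⟨x, y, z⟩ hx
    rw [hT, mem_product, mem_product] at hx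
    obtain ⟨h1, h2, h3⟩ := hx
    simp only at h1 h2 h3
    simp only [mem_union, mem_image, mem_product, Prod.exists, Prod.mk.injEq]
    by_cases c1 : Nat.Coprime (6 * x + 1) (6 * y + 1)
    · by_cases c2 : Nat.Coprime (6 * x + 1) (6 * z + 2)
      · by_cases c3 : Nat.Coprime (6 * y + 1) (6 * z + 2)
        · left
          rw [mem_filter, hT, mem_product, mem_product]
          exact ⟨⟨h1, h2, h3⟩, c1, c2, c3⟩
        · right; right; right
          refine ⟨y, z, x, ⟨?_, h1⟩, rfl, rfl, rfl⟩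
          rw [hP2, mem_filter, mem_product]
          exact ⟨⟨h2, h3⟩, c3⟩
      · right; right; left
        refine ⟨x, z, y, ⟨?_, h2⟩, rfl, rfl, rfl⟩
        rw [hP2, mem_filter, mem_product]
        exact ⟨⟨h1, h3⟩, c2⟩
    · right; left
      refine ⟨x, y, z, ⟨?_, h3⟩, rfl, rfl, rfl⟩
      rw [hP1, mem_filter, mem_product]
      exact ⟨⟨h1, h2⟩, c1⟩
  have h1 : T.card ≤ (T.filter Good).card + (P1.card * B + (P2.card * B + P2.card * B)) := by
    have g1 : ((P1 ×ˢ range B).image (fun y => (y.1.1, y.1.2, y.2))).card ≤ P1.card * B :=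
      card_image_le.trans (by rw [card_product, card_range])
    have g2 : ((P2 ×ˢ range B).image (fun y => (y.1.1, y.2, y.1.2))).card ≤ P2.card * B :=
      card_image_le.trans (by rw [card_product, card_range])
    have g3 : ((P2 ×ˢ range B).image (fun y => (y.2, y.1.1, y.1.2))).card ≤ P2.card * B :=
      card_image_le.trans (by rw [card_product, card_range])
    refine (card_le_card hsub).trans ((card_union_le _ _).trans (Nat.add_le_add_left ?_ _))
    refine (card_union_le _ _).trans (Nat.add_le_add g1 ?_)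
    exact (card_union_le _ _).trans (Nat.add_le_add g2 g3)
  have h2 : T.card = B * (B * B) := by
    rw [hT, card_product, card_product, card_range]
  rw [h2] at h1
  have h3 : (B : ℝ) * (B * B) ≤ ((T.filter Good).card : ℝ) +
      ((P1.card : ℝ) * B + ((P2.card : ℝ) * B + (P2.card : ℝ) * B)) := by exact_mod_cast h1
  have h4 := pair_bound hB 1
  have h5 := pair_bound hB 2
  rw [← hP1] at h4
  rw [← hP2] at h5
  have hB0 : (0 : ℝ) ≤ B := Nat.cast_nonneg _
  have h6 := mul_le_mul_of_nonneg_right h4 hB0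
  have h7 := mul_le_mul_of_nonneg_right h5 hB0
  nlinarith

/-- The vector of a triple. -/
def vec (x : ℕ × ℕ × ℕ) : Fin 3 → ℤ :=
  ![((6 * x.1 + 1 : ℕ) : ℤ), ((6 * x.2.1 + 1 : ℕ) : ℤ), -((6 * x.2.2 + 2 : ℕ) : ℤ)]

theorem vec_adm {x : ℕ × ℕ × ℕ} (hx : Good x) : Adm (vec x) := by
  obtain ⟨x, y, z⟩ := x
  obtain ⟨h1, h2, h3⟩ := hx
  simp only at h1 h2 h3
  have e0 : vec (x, y, z) 0 = ((6 * x + 1 : ℕ) : ℤ) := rfl
  have e1 : vec (x, y, z) 1 = ((6 * y + 1 : ℕ) : ℤ) := rfl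
  have e2 : vec (x, y, z) 2 = -((6 * z + 2 : ℕ) : ℤ) := rfl
  have k1 : IsCoprime (vec (x, y, z) 0) (vec (x, y, z) 1) := by
    rw [e0, e1]; exact Nat.isCoprime_iff_coprime.2 h1
  have k2 : IsCoprime (vec (x, y, z) 0) (vec (x, y, z) 2) := by
    rw [e0, e2]; exact (Nat.isCoprime_iff_coprime.2 h2).neg_right
  have k3 : IsCoprime (vec (x, y, z) 1) (vec (x, y, z) 2) := by
    rw [e1, e2]; exact (Nat.isCoprime_iff_coprime.2 h3).neg_right
  refine ⟨?_, ?_, ?_, ?_, ?_⟩
  · intro i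
    fin_cases i
    · show vec (x, y, z) 0 ≠ 0
      rw [e0]; omega
    · show vec (x, y, z) 1 ≠ 0
      rw [e1]; omega
    · show vec (x, y, z) 2 ≠ 0
      rw [e2]; omega
  · intro h
    have := h 2
    rw [e2] at this
    omega
  · intro h
    have := h 0
    rw [e0] at this
    omega
  · intro i j hij
    fin_cases i <;> fin_cases j
    · exact absurd rfl hij
    · exact k1
    · exact k2
    · exact k1.symm
    · exact absurd rfl hij
    · exact k3
    · exact k2.symm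
    · exact k3.symm
    · exact absurd rfl hij
  · rw [e0, e1, e2]
    refine ⟨3 * ((x : ℤ) + y - z), ?_⟩
    push_cast
    ring

open Classical in
theorem dens_ : S_DENS := by
  refine ⟨1 / 4116, by norm_num, 12960, ?_⟩
  intro A hA
  set B : ℕ := A / 6 with hBdef
  have hB : 2160 ≤ B := by omega
  have h1 := good_card hB
  have h2 : ((range B ×ˢ (range B ×ˢ range B)).filter Good).card ≤
      ((V3 A).filter (fun a => Adm a)).card := by
    apply Finset.card_le_card_of_injOn vec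
    · rintro ⟨x, y, z⟩ hx
      have hx' := mem_filter.1 (Finset.mem_coe.1 hx)
      obtain ⟨hxx, hx3⟩ := hx'
      rw [mem_product, mem_product, mem_range, mem_range, mem_range] at hxx
      obtain ⟨g1, g2, g3⟩ := hxx
      simp only at g1 g2 g3
      rw [Finset.mem_coe, mem_filter]
      refine ⟨?_, vec_adm hx3⟩
      unfold V3
      rw [Fintype.mem_piFinset]
      intro i
      rw [mem_Icc]
      have e0 : vec (x, y, z) 0 = ((6 * x + 1 : ℕ) : ℤ) := rfl
      have e1 : vec (x, y, z) 1 = ((6 * y + 1 : ℕ) : ℤ) := rfl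
      have e2 : vec (x, y, z) 2 = -((6 * z + 2 : ℕ) : ℤ) := rfl
      fin_cases i
      · show -(A : ℤ) ≤ vec (x, y, z) 0 ∧ vec (x, y, z) 0 ≤ A
        rw [e0]; omega
      · show -(A : ℤ) ≤ vec (x, y, z) 1 ∧ vec (x, y, z) 1 ≤ A
        rw [e1]; omega
      · show -(A : ℤ) ≤ vec (x, y, z) 2 ∧ vec (x, y, z) 2 ≤ A
        rw [e2]; omega
    · rintro ⟨x, y, z⟩ _ ⟨x', y', z'⟩ _ hxy
      have c0 : ((6 * x + 1 : ℕ) : ℤ) = ((6 * x' + 1 : ℕ) : ℤ) := congrFun hxy 0
      have c1 : ((6 * y + 1 : ℕ) : ℤ) = ((6 * y' + 1 : ℕ) : ℤ) := congrFun hxy 1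
      have c2 : -((6 * z + 2 : ℕ) : ℤ) = -((6 * z' + 2 : ℕ) : ℤ) := congrFun hxy 2
      simp only [Prod.mk.injEq]
      omega
  have h3 : (A : ℝ) / 7 ≤ B := by
    have : A ≤ 7 * B := by omega
    have h4 : (A : ℝ) ≤ 7 * B := by exact_mod_cast this
    linarith
  have h4 : ((A : ℝ) / 7) ^ 3 ≤ (B : ℝ) ^ 3 := pow_le_pow_left₀ (by positivity) h3 3
  have h5 : (((range B ×ˢ (range B ×ˢ range B)).filter Good).card : ℝ) ≤
      (((V3 A).filter (fun a => Adm a)).card : ℝ) := by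
    exact_mod_cast h2
  refine le_trans ?_ h5
  refine le_trans ?_ h1
  have h6 : 1 / 4116 * (A : ℝ) ^ 3 = ((A : ℝ) / 7) ^ 3 / 12 := by ring
  rw [h6]
  linarith

end Pool.Agent.N40.LB
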